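import Pool.Agent.H41.HKB.Targets

set_option autoImplicit false

namespace Pool.Agent.H22.HKB

open Finset Pool.Agent.H41.HKB Pool.Agent.H42.BD
open scoped Classical

theorem pf_BLK : T_BLK := by
  intro P V _ N hN hsum
  have key : ∀ S : Finset P, S.card ≤ (S.biUnion N).card := by
    intro S
    rcases S.eq_empty_or_nonempty with rfl | hS
    · simp
    · obtain ⟨p0, hp0⟩ := hS
      have hu : 0 < (S.biUnion N).card := by
        rw [Finset.card_pos]
        obtain ⟨v, hv⟩ := hN p0
        exact ⟨v, Finset.mem_biUnion.mpr ⟨p0, hp0, hv⟩⟩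
      have hu' : (0 : ℝ) < (S.biUnion N).card := by exact_mod_cast hu
      have h1 : ∀ p ∈ S, 1 / ((S.biUnion N).card : ℝ) ≤ 1 / ((N p).card : ℝ) := by
        intro p hp
        have h2 : (N p).card ≤ (S.biUnion N).card :=
          Finset.card_le_card (Finset.subset_biUnion_of_mem N hp)
        have h3 : 0 < (N p).card := Finset.card_pos.mpr (hN p)
        have h3' : (0 : ℝ) < (N p).card := by exact_mod_cast h3
        exact one_div_le_one_div_of_le h3' (by exact_mod_cast h2)
      have h4 : ∑ p ∈ S, 1 / ((S.biUnion N).card : ℝ) ≤ ∑ p, 1 / ((N p).card : ℝ) :=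
        le_trans (Finset.sum_le_sum h1) (Finset.sum_le_sum_of_subset_of_nonneg
          (Finset.subset_univ S) (fun i _ _ => by positivity))
      rw [Finset.sum_const, nsmul_eq_mul] at h4
      have h5 : (S.card : ℝ) * (1 / ((S.biUnion N).card : ℝ)) ≤ 1 := le_trans h4 hsum
      rw [mul_one_div, div_le_one hu'] at h5
      exact_mod_cast h5
  exact (Finset.all_card_le_biUnion_card_iff_exists_injective N).mp key

end Pool.Agent.H22.HKB
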