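import Pool.Agent.H41.HKB.Targets

set_option autoImplicit false

namespace Pool.Agent.H22.HKB

open Finset Pool.Agent.H41.HKB Pool.Agent.H42.BD
open scoped Classical

noncomputable section

/-- the light pairs of `F` in the neighbourhood of `y` -/
def PF {V : Type} [Fintype V] (k : ℕ) (G : SimpleGraph V) (y : V) (F : V → V → Prop) :
    Finset (V × V) :=
  (nb G y ×ˢ nb G y).filter (fun p => p.1 ≠ p.2 ∧ F p.1 p.2 ∧ cd G p.1 p.2 < hk k)

theorem mem_PF {V : Type} [Fintype V] {k : ℕ} {G : SimpleGraph V} {y : V} {F : V → V → Prop}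
    {p : V × V} : p ∈ PF k G y F ↔ p ∈ nb G y ×ˢ nb G y ∧ p.1 ≠ p.2 ∧ F p.1 p.2 ∧
      cd G p.1 p.2 < hk k := by
  unfold PF
  rw [Finset.mem_filter]

theorem inb_key (hINA : T_INA) (k R T : ℕ) (ε : ℝ) (hk2 : 2 ≤ k) (hR : RamP k R)
    (hT : 2 * R ≤ T) {V : Type} [Fintype V] (G : SimpleGraph V) (hfree : (HG k).Free G) (y : V)
    (F : V → V → Prop) (hF : ∀ a b, F a b → F b a)
    (hK : ∀ y', Im T ε G y y' → ∀ K ⊆ cn G y y', K.card = k →
      (∀ a ∈ K, ∀ b ∈ K, a ≠ b → cd G a b < hk k) → ∃ a ∈ K, ∃ b ∈ K, a ≠ b ∧ F a b) :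
    Is T ε G y ≤ 2 * R * hk k * ((PF k G y F).card : ℝ) := by
  have h1 : ∀ y' : V, (if Im T ε G y y' then (cd G y y' : ℝ) ^ 2 else 0) ≤
      ∑ p ∈ PF k G y F, 2 * (R : ℝ) *
        (if p.1 ∈ cn G y y' ∧ p.2 ∈ cn G y y' then 1 else 0) := by
    intro y'
    by_cases him : Im T ε G y y'
    · rw [if_pos him]
      have hB : cn G y y' ⊆ nb G y := by
        intro v hv
        rw [mem_cn] at hv
        rw [mem_nb]
        exact hv.1
      have h2 := hINA k R hk2 hR V G hfree y (cn G y y')
        (fun a b => F a b ∧ cd G a b < hk k) hB (le_trans hT him.2.1)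
        (fun a b hab => ⟨hF a b hab.1, by rw [cd_comm]; exact hab.2⟩)
        (fun K hKB hKc hKl => by
          obtain ⟨a, ha, b, hb, hab, hFab⟩ := hK y' him K hKB hKc hKl
          exact ⟨a, ha, b, hb, hab, hFab, hKl a ha b hb hab⟩)
      have h3 : (((cn G y y' ×ˢ cn G y y').filter
          (fun p => p.1 ≠ p.2 ∧ (F p.1 p.2 ∧ cd G p.1 p.2 < hk k))).card : ℝ) =
          ∑ p ∈ PF k G y F, (if p.1 ∈ cn G y y' ∧ p.2 ∈ cn G y y' then (1 : ℝ) else 0) := by
        rw [Finset.sum_boole]
        congr 2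
        ext p
        unfold PF
        simp only [Finset.mem_filter, Finset.mem_product]
        constructor
        · rintro ⟨⟨ha, hb⟩, h4⟩
          exact ⟨⟨⟨hB ha, hB hb⟩, h4⟩, ha, hb⟩
        · rintro ⟨⟨_, h4⟩, ha, hb⟩
          exact ⟨⟨ha, hb⟩, h4⟩
      have h2' : (cd G y y' : ℝ) ^ 2 ≤ 2 * R * (((cn G y y' ×ˢ cn G y y').filter
          (fun p => p.1 ≠ p.2 ∧ (F p.1 p.2 ∧ cd G p.1 p.2 < hk k))).card : ℝ) := by
        change ((cn G y y').card : ℝ) ^ 2 ≤ _
        convert h2
      rw [h3] at h2'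
      rw [← Finset.mul_sum]
      exact h2'
    · rw [if_neg him]
      apply Finset.sum_nonneg
      intro p _
      have : (0 : ℝ) ≤ R := Nat.cast_nonneg _
      split_ifs
      · linarith
      · linarith
  have h2 : Is T ε G y ≤ ∑ y' : V, ∑ p ∈ PF k G y F, 2 * (R : ℝ) *
        (if p.1 ∈ cn G y y' ∧ p.2 ∈ cn G y y' then 1 else 0) :=
    Finset.sum_le_sum (fun y' _ => h1 y')
  rw [Finset.sum_comm] at h2
  refine le_trans h2 ?_
  have h3 : ∀ p ∈ PF k G y F, ∑ y' : V, 2 * (R : ℝ) *
        (if p.1 ∈ cn G y y' ∧ p.2 ∈ cn G y y' then 1 else 0) ≤ 2 * R * hk k := by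
    intro p hp
    rw [← Finset.mul_sum, Finset.sum_boole]
    have h4 : (univ.filter (fun y' => p.1 ∈ cn G y y' ∧ p.2 ∈ cn G y y')).card ≤ hk k := by
      have h5 : univ.filter (fun y' => p.1 ∈ cn G y y' ∧ p.2 ∈ cn G y y') ⊆ cn G p.1 p.2 := by
        intro y' hy'
        rw [Finset.mem_filter, mem_cn, mem_cn] at hy'
        rw [mem_cn]
        exact ⟨hy'.2.1.2.symm, hy'.2.2.2.symm⟩
      have h6 : cd G p.1 p.2 < hk k := by
        unfold PF at hp
        rw [Finset.mem_filter] at hp
        exact hp.2.2.2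
      exact le_trans (Finset.card_le_card h5) h6.le
    have h7 : ((univ.filter (fun y' => p.1 ∈ cn G y y' ∧ p.2 ∈ cn G y y')).card : ℝ) ≤ hk k := by
      exact_mod_cast h4
    have : (0 : ℝ) ≤ 2 * R := by positivity
    exact mul_le_mul_of_nonneg_left h7 this
  refine le_trans (Finset.sum_le_sum h3) (le_of_eq ?_)
  rw [Finset.sum_const, nsmul_eq_mul]
  ring

theorem ram_pos {k R : ℕ} (hk2 : 2 ≤ k) (hR : RamP k R) : 1 ≤ R := by
  by_contra h
  have h0 : R = 0 := by omega
  subst h0
  obtain ⟨K, hK, hc, _⟩ := hR Unit ∅ (fun _ _ => True) (fun _ _ h => h) (by simp)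
  have : K = ∅ := Finset.subset_empty.mp hK
  rw [this] at hc
  simp at hc
  omega

/-- the graph of the relation `Qr` on the neighbourhood of `y` -/
def Qg {V : Type} [Fintype V] (k T : ℕ) (ε : ℝ) (G : SimpleGraph V) (y : V) :
    SimpleGraph {v // v ∈ nb G y} where
  Adj u v := Qr k T ε G y u v
  symm := ⟨fun u v h => ⟨h.1.symm, by rw [cd_comm]; exact h.2.1, by
    obtain ⟨y', h1, h2, h3⟩ := h.2.2
    exact ⟨y', h1, h3, h2⟩⟩⟩
  loopless := ⟨fun u h => h.1 rfl⟩

theorem pf_INB (hINA : T_INA) (hREM : T_REM) : T_INB := by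
  intro k R T M δ hk2 hR hT hM hδ
  have hR1 := ram_pos hk2 hR
  have hRpos : (0 : ℝ) < R := by exact_mod_cast hR1
  have hhpos : (0 : ℝ) < hk k := by
    have : 0 < hk k := by unfold hk; omega
    exact_mod_cast this
  set d1 : ℝ := δ / (4 * R * hk k * M ^ 2) with hd1
  have hd1pos : 0 < d1 := by positivity
  obtain ⟨κ, hκ, H⟩ := hREM k d1 hd1pos
  refine ⟨κ, hκ, Real.sqrt (δ / (2 * R * hk k)), Real.sqrt_pos.mpr (by positivity), ?_⟩
  intro ε V _ G hG y hlt
  set N : ℝ := ((nb G y).card : ℝ) with hN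
  have hN0 : 0 ≤ N := Nat.cast_nonneg _
  have hsn : sn V ^ 2 = Fintype.card V := by
    unfold sn
    exact Real.sq_sqrt (Nat.cast_nonneg _)
  have hsn0 : 0 ≤ sn V := Real.sqrt_nonneg _
  refine ⟨?_, ?_⟩
  · -- lower bound for the degree
    have h1 := inb_key hINA k R T ε hk2 hR hT G hG.free y (fun _ _ => True)
      (fun _ _ h => h) (fun y' _ K _ hKc _ => by
        have h2 : 1 < K.card := by omega
        obtain ⟨a, ha, b, hb, hab⟩ := Finset.one_lt_card.mp h2
        exact ⟨a, ha, b, hb, hab, trivial⟩)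
    have h2 : ((PF k G y (fun _ _ => True)).card : ℝ) ≤ N ^ 2 := by
      have : (PF k G y (fun _ _ => True)).card ≤ (nb G y ×ˢ nb G y).card := by
        apply Finset.card_le_card
        intro p hp
        exact (mem_PF.mp hp).1
      rw [Finset.card_product] at this
      have h3 : ((PF k G y (fun _ _ => True)).card : ℝ) ≤
          ((nb G y).card : ℝ) * ((nb G y).card : ℝ) := by exact_mod_cast this
      rw [sq]; exact h3
    have h3 : δ * sn V ^ 2 ≤ 2 * R * hk k * N ^ 2 := by
      rw [hsn]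
      refine le_trans hlt.le (le_trans h1 ?_)
      exact mul_le_mul_of_nonneg_left h2 (by positivity)
    have h4 : (Real.sqrt (δ / (2 * R * hk k)) * sn V) ^ 2 ≤ N ^ 2 := by
      rw [mul_pow, Real.sq_sqrt (by positivity), div_mul_eq_mul_div, div_le_iff₀ (by positivity)]
      linarith
    exact (sq_le_sq₀ (by positivity) hN0).mp h4
  · -- many cliques
    have hW : Fintype.card {v // v ∈ nb G y} = (nb G y).card := Fintype.card_coe _
    have h1 : ∀ Q' : SimpleGraph {v // v ∈ nb G y}, Q' ≤ Qg k T ε G y →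
        (oe (Qg k T ε G y) : ℝ) - oe Q' ≤ d1 * (Fintype.card {v // v ∈ nb G y} : ℝ) ^ 2 →
        ∃ f : Fin k → {v // v ∈ nb G y}, ∀ i j, i < j → Q'.Adj (f i) (f j) := by
      intro Q' hQ' hoe
      by_contra hno
      push Not at hno
      set F : V → V → Prop := fun a b => ∃ (ha : a ∈ nb G y) (hb : b ∈ nb G y),
        (Qg k T ε G y).Adj ⟨a, ha⟩ ⟨b, hb⟩ ∧ ¬ Q'.Adj ⟨a, ha⟩ ⟨b, hb⟩ with hFdef
      have hFs : ∀ a b, F a b → F b a := by
        rintro a b ⟨ha, hb, h2, h3⟩
        exact ⟨hb, ha, h2.symm, fun h => h3 h.symm⟩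
      have hK : ∀ y', Im T ε G y y' → ∀ K ⊆ cn G y y', K.card = k →
          (∀ a ∈ K, ∀ b ∈ K, a ≠ b → cd G a b < hk k) →
          ∃ a ∈ K, ∃ b ∈ K, a ≠ b ∧ F a b := by
        intro y' him K hKB hKc hKl
        by_contra hnoF
        push Not at hnoF
        have hKn : ∀ a ∈ K, a ∈ nb G y := fun a ha => by
          have := hKB ha
          rw [mem_cn] at this
          rw [mem_nb]
          exact this.1
        have e : Fin k ≃ {v // v ∈ K} := (finCongr hKc.symm).trans K.equivFin.symm
        obtain ⟨i, j, hij, hadj⟩ := hno (fun i => ⟨(e i).1, hKn _ (e i).2⟩)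
        have hne : (e i).1 ≠ (e j).1 := by
          intro h
          have := e.injective (Subtype.ext h)
          exact absurd this hij.ne
        apply hnoF (e i).1 (e i).2 (e j).1 (e j).2 hne
        exact ⟨hKn _ (e i).2, hKn _ (e j).2,
          ⟨hne, hKl _ (e i).2 _ (e j).2 hne, y', him, hKB (e i).2, hKB (e j).2⟩, hadj⟩
      have h2 := inb_key hINA k R T ε hk2 hR hT G hG.free y F hFs hK
      -- the number of light pairs of `F`
      have h3 : ((PF k G y F).card : ℝ) ≤ (oe (Qg k T ε G y) : ℝ) - oe Q' := by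
        have h4 : (oe (Qg k T ε G y) : ℝ) - oe Q' = (((univ : Finset ({v // v ∈ nb G y} ×
            {v // v ∈ nb G y})).filter (fun p => (Qg k T ε G y).Adj p.1 p.2 ∧
              ¬ Q'.Adj p.1 p.2)).card : ℝ) := by
          have h5 : oe (Qg k T ε G y) = oe Q' + ((univ : Finset ({v // v ∈ nb G y} ×
            {v // v ∈ nb G y})).filter (fun p => (Qg k T ε G y).Adj p.1 p.2 ∧
              ¬ Q'.Adj p.1 p.2)).card := by
            unfold oe
            rw [← Finset.card_union_of_disjoint]
            · congr 1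
              ext p
              simp only [Finset.mem_filter, Finset.mem_univ, true_and, Finset.mem_union]
              constructor
              · intro h
                by_cases h6 : Q'.Adj p.1 p.2
                · exact Or.inl h6
                · exact Or.inr ⟨h, h6⟩
              · rintro (h | h)
                · exact hQ' h
                · exact h.1
            · rw [Finset.disjoint_left]
              intro p hp hp2
              simp only [Finset.mem_filter, Finset.mem_univ, true_and] at hp hp2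
              exact hp2.2 hp
          rw [h5]; push_cast; ring
        rw [h4]
        have h6 : (PF k G y F).card ≤ ((univ : Finset ({v // v ∈ nb G y} ×
            {v // v ∈ nb G y})).filter (fun p => (Qg k T ε G y).Adj p.1 p.2 ∧
              ¬ Q'.Adj p.1 p.2)).card := by
          have himg : PF k G y F ⊆ (((univ : Finset ({v // v ∈ nb G y} ×
            {v // v ∈ nb G y})).filter (fun p => (Qg k T ε G y).Adj p.1 p.2 ∧
              ¬ Q'.Adj p.1 p.2)).image (fun p => (p.1.1, p.2.1))) := by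
            intro p hp
            obtain ⟨ha, hb, h7, h8⟩ := (mem_PF.mp hp).2.2.1
            rw [Finset.mem_image]
            refine ⟨(⟨p.1, ha⟩, ⟨p.2, hb⟩), ?_, rfl⟩
            rw [Finset.mem_filter]
            exact ⟨Finset.mem_univ _, h7, h8⟩
          exact le_trans (Finset.card_le_card himg) Finset.card_image_le
        exact_mod_cast h6
      rw [hW] at hoe
      have hNM : N ^ 2 ≤ M ^ 2 * sn V ^ 2 := by
        rw [← mul_pow]
        exact pow_le_pow_left₀ hN0 (hG.deg y) 2
      have h8 : Is T ε G y ≤ 2 * R * hk k * (d1 * (M ^ 2 * sn V ^ 2)) := by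
        refine le_trans h2 (mul_le_mul_of_nonneg_left ?_ (by positivity))
        refine le_trans h3 (le_trans hoe ?_)
        exact mul_le_mul_of_nonneg_left hNM hd1pos.le
      rw [hsn] at h8
      have h9 : 2 * R * hk k * (d1 * (M ^ 2 * Fintype.card V)) = δ * Fintype.card V / 2 := by
        rw [hd1]; field_simp; ring
      rw [h9] at h8
      have h10 : (0 : ℝ) ≤ δ * Fintype.card V := by positivity
      linarith
    have h2 := H {v // v ∈ nb G y} (Qg k T ε G y) h1
    rw [hW] at h2
    refine le_trans h2 ?_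
    have h3 : ((univ : Finset (Fin k → {v // v ∈ nb G y})).filter
        (fun f => ∀ i j, i < j → (Qg k T ε G y).Adj (f i) (f j))).card ≤
        ((univ : Finset (Fin k → V)).filter
          (fun f => (∀ i, f i ∈ nb G y) ∧ ∀ i j, i < j → Qr k T ε G y (f i) (f j))).card := by
      apply Finset.card_le_card_of_injOn (fun f => fun i => (f i).1)
      · intro f hf
        simp only [Finset.coe_filter, Finset.mem_univ, true_and, Set.mem_ofPred_eq] at hf ⊢
        exact ⟨fun i => (f i).2, fun i j hij => hf i j hij⟩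
      · intro f _ f' _ h
        funext i
        exact Subtype.ext (congrFun h i)
    exact_mod_cast h3

end

end Pool.Agent.H22.HKB
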