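import Pool.Agent.H41.HKB.Targets

set_option autoImplicit false

namespace Pool.Agent.H22.HKB

open Finset Pool.Agent.H41.HKB Pool.Agent.H42.BD
open scoped Classical

theorem pf_INT (hRAM : T_RAM) (hINB : T_INB) (hINC : T_INC) (hIND : T_IND) : T_INT := by
  intro k hk2
  obtain ⟨R, hR⟩ := hRAM k
  refine ⟨max (hk k) (2 * R), le_max_left _ _, ?_⟩
  intro M δ hM hδ
  set T := max (hk k) (2 * R) with hT
  obtain ⟨κ, hκ, c, hc, H⟩ := hINB k R T M δ hk2 hR (le_max_right _ _) hM hδ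
  have hkpos : (0 : ℝ) < k := by exact_mod_cast (by omega : 0 < k)
  have hhpos : (0 : ℝ) < hk k := by
    have : 0 < hk k := by unfold hk; omega
    exact_mod_cast this
  set D : ℝ := (k : ℝ) ^ 3 * hk k with hD
  have hDpos : 0 < D := by positivity
  refine ⟨κ * c / (2 * D), by positivity, ⌈(2 * D / (κ * c)) ^ 2⌉₊ + 1, ?_⟩
  intro V _ G hn hG y
  by_contra hcon
  push Not at hcon
  obtain ⟨h1, h2⟩ := H (κ * c / (2 * D)) V G hG y hcon
  set ε : ℝ := κ * c / (2 * D) with hε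
  have hε0 : 0 < ε := by positivity
  -- the square root of the number of vertices is large
  have hs : 2 * D / (κ * c) < sn V := by
    unfold sn
    apply Real.lt_sqrt_of_sq_lt
    have h3 : (2 * D / (κ * c)) ^ 2 ≤ (⌈(2 * D / (κ * c)) ^ 2⌉₊ : ℝ) := Nat.le_ceil _
    have h4 : ((⌈(2 * D / (κ * c)) ^ 2⌉₊ + 1 : ℕ) : ℝ) ≤ Fintype.card V := by exact_mod_cast hn
    push_cast at h4
    linarith
  have hs0 : 0 < sn V := lt_trans (by positivity) hs
  set N : ℝ := ((nb G y).card : ℝ) with hN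
  have hN0 : 0 < N := lt_of_lt_of_le (mul_pos hc hs0) h1
  have h5 : (((univ : Finset (Fin k → V)).filter
      (fun f => (∀ i, f i ∈ nb G y) ∧ ∀ i j, i < j → Qr k T ε G y (f i) (f j))).card : ℝ) ≤
      (((univ : Finset (Fin k → V)).filter
      (fun f => (∀ i, f i ∈ nb G y) ∧ BadI k T ε G y f)).card : ℝ) := by
    have : ((univ : Finset (Fin k → V)).filter
      (fun f => (∀ i, f i ∈ nb G y) ∧ ∀ i j, i < j → Qr k T ε G y (f i) (f j))) ⊆
      ((univ : Finset (Fin k → V)).filter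
      (fun f => (∀ i, f i ∈ nb G y) ∧ BadI k T ε G y f)) := by
      intro f hf
      rw [Finset.mem_filter] at hf ⊢
      exact ⟨hf.1, hf.2.1, hIND k T ε V G y f hG.free hf.2.1 hf.2.2⟩
    exact_mod_cast Finset.card_le_card this
  have h6 := hINC k T ε V G y hε0.le
  have h7 : κ * N ^ k ≤ D * (ε * sn V + 1) * N ^ (k - 1) := le_trans h2 (le_trans h5 h6)
  have h8 : N ^ k = N ^ (k - 1) * N := by
    rw [← pow_succ]; congr 1; omega
  rw [h8] at h7
  have hp : 0 < N ^ (k - 1) := pow_pos hN0 _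
  have h9 : κ * N ≤ D * (ε * sn V + 1) := by
    have : N ^ (k - 1) * (κ * N) ≤ N ^ (k - 1) * (D * (ε * sn V + 1)) := by nlinarith
    exact le_of_mul_le_mul_left this hp
  have h10 : κ * (c * sn V) ≤ κ * N := mul_le_mul_of_nonneg_left h1 hκ.le
  have h11 : D * (ε * sn V + 1) = κ * c * sn V / 2 + D := by
    rw [hε]; field_simp
  rw [h11] at h9
  rw [div_lt_iff₀ (by positivity)] at hs
  nlinarith

end Pool.Agent.H22.HKB
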