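import Pool.Agent.H41.HKB.Targets

set_option autoImplicit false

namespace Pool.Agent.H22.HKB

open Finset Pool.Agent.H41.HKB Pool.Agent.H42.BD
open scoped Classical

noncomputable section

/-- the probability of the random subset `K` -/
def ms {V : Type} (S : Finset V) (p : ℝ) (K : Finset V) : ℝ :=
  p ^ K.card * (1 - p) ^ (S \ K).card

theorem ms_nonneg {V : Type} {S : Finset V} {p : ℝ} (h0 : 0 ≤ p) (h1 : p ≤ 1) (K : Finset V) :
    0 ≤ ms S p K := by
  unfold ms
  have : 0 ≤ 1 - p := by linarith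
  positivity

theorem ms_sup {V : Type} (S : Finset V) (p : ℝ) (A : Finset V) (hA : A ⊆ S) :
    ∑ K ∈ S.powerset, ms S p K * (if A ⊆ K then 1 else 0) = p ^ A.card := by
  have h := Finset.prod_add (fun _ : V => p) (fun i => if i ∈ A then (0 : ℝ) else 1 - p) S
  have hL : ∏ i ∈ S, (p + (if i ∈ A then (0 : ℝ) else 1 - p)) = p ^ A.card := by
    rw [← Finset.prod_sdiff hA]
    have h1 : ∏ i ∈ S \ A, (p + (if i ∈ A then (0 : ℝ) else 1 - p)) = 1 := by
      apply Finset.prod_eq_one
      intro i hi
      rw [Finset.mem_sdiff] at hi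
      rw [if_neg hi.2]; ring
    have h2 : ∏ i ∈ A, (p + (if i ∈ A then (0 : ℝ) else 1 - p)) = p ^ A.card := by
      rw [← Finset.prod_const]
      apply Finset.prod_congr rfl
      intro i hi
      rw [if_pos hi]; ring
    rw [h1, h2, one_mul]
  rw [← hL, h]
  apply Finset.sum_congr rfl
  intro K hK
  rw [Finset.mem_powerset] at hK
  rw [Finset.prod_const]
  unfold ms
  rw [mul_assoc]
  congr 1
  by_cases hAK : A ⊆ K
  · rw [if_pos hAK, mul_one, ← Finset.prod_const]
    apply Finset.prod_congr rfl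
    intro i hi
    rw [Finset.mem_sdiff] at hi
    rw [if_neg (fun hA' => hi.2 (hAK hA'))]
  · rw [if_neg hAK, mul_zero]
    obtain ⟨i, hiA, hiK⟩ := Finset.not_subset.mp hAK
    symm
    apply Finset.prod_eq_zero (i := i)
    · rw [Finset.mem_sdiff]; exact ⟨hA hiA, hiK⟩
    · rw [if_pos hiA]

theorem ms_sum {V : Type} (S : Finset V) (p : ℝ) : ∑ K ∈ S.powerset, ms S p K = 1 := by
  have h := ms_sup S p ∅ (Finset.empty_subset S)
  simpa using h

/-- expectation of the number of elements -/
theorem ms_card {V : Type} (S : Finset V) (p : ℝ) :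
    ∑ K ∈ S.powerset, ms S p K * (K.card : ℝ) = p * S.card := by
  have h1 : ∀ K ∈ S.powerset, ms S p K * (K.card : ℝ) =
      ∑ a ∈ S, ms S p K * (if ({a} : Finset V) ⊆ K then 1 else 0) := by
    intro K hK
    rw [Finset.mem_powerset] at hK
    rw [← Finset.mul_sum]
    congr 1
    simp only [Finset.singleton_subset_iff]
    rw [Finset.sum_boole]
    congr 2
    ext a
    rw [Finset.mem_filter]
    exact ⟨fun h => ⟨hK h, h⟩, fun h => h.2⟩
  rw [Finset.sum_congr rfl h1, Finset.sum_comm]
  have h2 : ∀ a ∈ S, ∑ K ∈ S.powerset, ms S p K * (if ({a} : Finset V) ⊆ K then 1 else 0) = p := by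
    intro a ha
    rw [ms_sup S p {a} (Finset.singleton_subset_iff.mpr ha), Finset.card_singleton, pow_one]
  rw [Finset.sum_congr rfl h2, Finset.sum_const, nsmul_eq_mul, mul_comm]

/-- expectation of the weight of a pair -/
theorem ms_pair {V : Type} (S : Finset V) (r : V → V → Prop) (g : ℕ) (p : ℝ) (h0 : 0 ≤ p)
    (hg : ∀ a ∈ S, (S.filter (r a)).card ≤ g) (hr : ∀ a ∈ S, r a a) (a b : V) (ha : a ∈ S)
    (hb : b ∈ S) (hab : ¬ r a b) :
    ∑ K ∈ S.powerset, ms S p K * (if a ∈ K ∧ b ∈ K then ((K.filter (r a)).card : ℝ) else 0) ≤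
      p ^ 2 * (1 + p * ((g : ℝ) - 1)) := by
  have hne : a ≠ b := fun h => hab (h ▸ hr a ha)
  have h1 : ∀ K ∈ S.powerset,
      ms S p K * (if a ∈ K ∧ b ∈ K then ((K.filter (r a)).card : ℝ) else 0) =
      ∑ c ∈ S.filter (r a), ms S p K * (if ({a, b, c} : Finset V) ⊆ K then 1 else 0) := by
    intro K hK
    rw [Finset.mem_powerset] at hK
    rw [← Finset.mul_sum]
    congr 1
    rw [Finset.sum_boole]
    by_cases h : a ∈ K ∧ b ∈ K
    · rw [if_pos h]
      congr 2
      ext c
      rw [Finset.mem_filter, Finset.mem_filter, Finset.mem_filter]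
      simp only [Finset.insert_subset_iff, Finset.singleton_subset_iff]
      constructor
      · rintro ⟨h2, h3⟩; exact ⟨⟨hK h2, h3⟩, h.1, h.2, h2⟩
      · rintro ⟨⟨_, h3⟩, _, _, h4⟩; exact ⟨h4, h3⟩
    · rw [if_neg h]
      have : ((S.filter (r a)).filter (fun c => ({a, b, c} : Finset V) ⊆ K)) = ∅ := by
        rw [Finset.filter_eq_empty_iff]
        intro c _ hc
        simp only [Finset.insert_subset_iff, Finset.singleton_subset_iff] at hc
        exact h ⟨hc.1, hc.2.1⟩
      rw [this]; simp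
  rw [Finset.sum_congr rfl h1, Finset.sum_comm]
  have haf : a ∈ S.filter (r a) := by rw [Finset.mem_filter]; exact ⟨ha, hr a ha⟩
  have h2 : ∀ c ∈ S.filter (r a),
      ∑ K ∈ S.powerset, ms S p K * (if ({a, b, c} : Finset V) ⊆ K then 1 else 0) =
        if c = a then p ^ 2 else p ^ 3 := by
    intro c hc
    rw [Finset.mem_filter] at hc
    have hsub : ({a, b, c} : Finset V) ⊆ S := by
      simp only [Finset.insert_subset_iff, Finset.singleton_subset_iff]
      exact ⟨ha, hb, hc.1⟩
    rw [ms_sup S p _ hsub]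
    have hcb : c ≠ b := fun h => hab (h ▸ hc.2)
    split_ifs with hca
    · subst hca
      have : ({c, b, c} : Finset V) = {c, b} := by
        ext x; simp only [Finset.mem_insert, Finset.mem_singleton]; tauto
      rw [this, Finset.card_pair hne]
    · have : ({a, b, c} : Finset V).card = 3 := by
        rw [Finset.card_eq_three]
        exact ⟨a, b, c, hne, fun h => hca h.symm, fun h => hcb h.symm, rfl⟩
      rw [this]
  rw [Finset.sum_congr rfl h2, ← Finset.add_sum_erase _ _ haf, if_pos rfl]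
  have h3 : ∑ c ∈ (S.filter (r a)).erase a, (if c = a then p ^ 2 else p ^ 3) =
      (((S.filter (r a)).card : ℝ) - 1) * p ^ 3 := by
    rw [Finset.sum_congr rfl (fun c hc => if_neg (Finset.ne_of_mem_erase hc)), Finset.sum_const,
      nsmul_eq_mul, Finset.card_erase_of_mem haf]
    have : 1 ≤ (S.filter (r a)).card := Finset.card_pos.mpr ⟨a, haf⟩
    rw [Nat.cast_sub this]
    push_cast; ring
  rw [h3]
  have h4 : ((S.filter (r a)).card : ℝ) ≤ g := by exact_mod_cast hg a ha
  have h5 : (0 : ℝ) ≤ p ^ 3 := by positivity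
  nlinarith

theorem pf_SLA : T_SLA := by
  intro V S r g w p h0 h1 _ hw hg hr
  set u : V → V → ℝ := fun a b => if r a b then 0 else w a b with hu
  set bound : ℝ := p * S.card - p ^ 2 * (1 + p * ((g : ℝ) - 1)) *
        ((1 / 2) * ∑ a ∈ S, ∑ b ∈ S, (if r a b then 0 else w a b)) with hbound
  set F : Finset V → ℝ := fun K => (K.card : ℝ) - (1 / 2) * ∑ a ∈ K, ∑ b ∈ K,
        (if r a b then 0 else w a b * ((K.filter (r a)).card : ℝ)) with hF
  by_contra hcon
  push Not at hcon
  have hlt : ∀ K ∈ S.powerset, F K < bound := by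
    intro K hK
    exact hcon K (Finset.mem_powerset.mp hK)
  -- the expectation
  have hE : bound ≤ ∑ K ∈ S.powerset, ms S p K * F K := by
    have e1 : ∀ K ∈ S.powerset, ms S p K * F K = ms S p K * (K.card : ℝ) -
        (1 / 2) * ∑ a ∈ S, ∑ b ∈ S, (if r a b then 0 else w a b) * (ms S p K *
          (if a ∈ K ∧ b ∈ K then ((K.filter (r a)).card : ℝ) else 0)) := by
      intro K hK
      rw [Finset.mem_powerset] at hK
      simp only [hF]
      rw [mul_sub]
      congr 1
      rw [mul_left_comm]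
      congr 1
      rw [Finset.mul_sum]
      rw [← Finset.sum_subset hK]
      · apply Finset.sum_congr rfl
        intro a ha
        rw [Finset.mul_sum]
        rw [← Finset.sum_subset hK]
        · apply Finset.sum_congr rfl
          intro b hb
          rw [if_pos (⟨ha, hb⟩ : a ∈ K ∧ b ∈ K)]
          split_ifs <;> ring
        · intro b _ hb
          rw [if_neg (fun h : a ∈ K ∧ b ∈ K => hb h.2)]; ring
      · intro a _ ha
        apply Finset.sum_eq_zero
        intro b _
        rw [if_neg (fun h : a ∈ K ∧ b ∈ K => ha h.1)]; ring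
    rw [Finset.sum_congr rfl e1, Finset.sum_sub_distrib, ms_card, ← Finset.mul_sum, hbound]
    have e2 : ∑ K ∈ S.powerset, ∑ a ∈ S, ∑ b ∈ S, (if r a b then 0 else w a b) * (ms S p K *
          (if a ∈ K ∧ b ∈ K then ((K.filter (r a)).card : ℝ) else 0)) ≤
        p ^ 2 * (1 + p * ((g : ℝ) - 1)) * ∑ a ∈ S, ∑ b ∈ S, (if r a b then 0 else w a b) := by
      rw [Finset.sum_comm, Finset.mul_sum]
      apply Finset.sum_le_sum
      intro a ha
      rw [Finset.sum_comm, Finset.mul_sum]
      apply Finset.sum_le_sum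
      intro b hb
      rw [← Finset.mul_sum]
      by_cases hab : r a b
      · rw [if_pos hab]; simp
      · rw [if_neg hab]
        have := ms_pair S r g p h0 hg hr a b ha hb hab
        have h3 := mul_le_mul_of_nonneg_left this (hw a b)
        linarith
    linarith
  -- some weight is positive
  obtain ⟨K0, hK0, hpos⟩ : ∃ K ∈ S.powerset, 0 < ms S p K := by
    by_contra hno
    push Not at hno
    have h2 : ∑ K ∈ S.powerset, ms S p K ≤ 0 := Finset.sum_nonpos hno
    rw [ms_sum] at h2
    linarith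
  have hfin : ∑ K ∈ S.powerset, ms S p K * F K < ∑ K ∈ S.powerset, ms S p K * bound := by
    apply Finset.sum_lt_sum
    · intro K hK
      exact mul_le_mul_of_nonneg_left (hlt K hK).le (ms_nonneg h0 h1 K)
    · exact ⟨K0, hK0, mul_lt_mul_of_pos_left (hlt K0 hK0) hpos⟩
  rw [← Finset.sum_mul, ms_sum, one_mul] at hfin
  linarith

end

end Pool.Agent.H22.HKB
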