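import Pool.Agent.H41.HKB.Targets

set_option autoImplicit false

namespace Pool.Agent.H22.HKB

open Finset Pool.Agent.H41.HKB Pool.Agent.H42.BD
open scoped Classical

noncomputable section

/-- the summand of the potential -/
def fS {V : Type} (S : Finset V) (r : V → V → Prop) (w : V → V → ℝ) (a b : V) : ℝ :=
  if r a b then 0 else w a b * ((S.filter (r a)).card : ℝ)

theorem fS_nonneg {V : Type} {S : Finset V} {r : V → V → Prop} {w : V → V → ℝ}
    (hw : ∀ a b, 0 ≤ w a b) (a b : V) : 0 ≤ fS S r w a b := by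
  unfold fS
  split_ifs
  · exact le_refl _
  · exact mul_nonneg (hw a b) (Nat.cast_nonneg _)

/-- Deleting a class of a bad block does not decrease the potential. -/
theorem step {V : Type} (S : Finset V) (r : V → V → Prop) (w : V → V → ℝ)
    (hw : ∀ a b, 0 ≤ w a b) (hs : ∀ a b, w a b = w b a) (hr : ∀ a ∈ S, r a a)
    (hsy : ∀ a ∈ S, ∀ b ∈ S, r a b → r b a)
    (htr : ∀ a ∈ S, ∀ b ∈ S, ∀ c ∈ S, r a b → r b c → r a c)
    (a0 b0 : V) (ha0 : a0 ∈ S) (hb0 : b0 ∈ S) (hab : ¬ r a0 b0)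
    (hle : (S.filter (r a0)).card ≤ (S.filter (r b0)).card)
    (hbad : 1 ≤ ∑ a' ∈ S.filter (r a0), ∑ b' ∈ S.filter (r b0), w a' b') :
    (S.card : ℝ) - (1 / 2) * ∑ a ∈ S, ∑ b ∈ S, fS S r w a b ≤
      ((S \ S.filter (r a0)).card : ℝ) - (1 / 2) * ∑ a ∈ S \ S.filter (r a0),
        ∑ b ∈ S \ S.filter (r a0), fS (S \ S.filter (r a0)) r w a b := by
  set A := S.filter (r a0) with hA
  set B := S.filter (r b0) with hB
  set S' := S \ A with hS'
  have hAS : A ⊆ S := Finset.filter_subset _ _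
  have hBS : B ⊆ S := Finset.filter_subset _ _
  have hS'S : S' ⊆ S := Finset.sdiff_subset
  have hBS' : B ⊆ S' := by
    intro b hb
    rw [hB, Finset.mem_filter] at hb
    rw [hS', Finset.mem_sdiff]
    refine ⟨hb.1, fun hbA => ?_⟩
    rw [hA, Finset.mem_filter] at hbA
    exact hab (htr a0 ha0 b hb.1 b0 hb0 hbA.2 (hsy b0 hb0 b hb.1 hb.2))
  -- classes of elements outside `A`
  have hcl : ∀ a ∈ S', S'.filter (r a) = S.filter (r a) := by
    intro a ha
    rw [hS', Finset.mem_sdiff] at ha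
    ext c
    rw [Finset.mem_filter, Finset.mem_filter, hS', Finset.mem_sdiff]
    constructor
    · rintro ⟨⟨h1, _⟩, h3⟩; exact ⟨h1, h3⟩
    · rintro ⟨h1, h3⟩
      refine ⟨⟨h1, fun hc => ?_⟩, h3⟩
      rw [hA, Finset.mem_filter] at hc
      apply ha.2
      rw [hA, Finset.mem_filter]
      exact ⟨ha.1, htr a0 ha0 c h1 a ha.1 hc.2 (hsy a ha.1 c h1 h3)⟩
  have hfeq : ∑ a ∈ S', ∑ b ∈ S', fS S' r w a b = ∑ a ∈ S', ∑ b ∈ S', fS S r w a b := by
    apply Finset.sum_congr rfl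
    intro a ha
    apply Finset.sum_congr rfl
    intro b _
    unfold fS
    rw [hcl a ha]
  -- class of an element of `A` is `A`
  have hclA : ∀ a ∈ A, S.filter (r a) = A := by
    intro a ha
    rw [hA, Finset.mem_filter] at ha
    ext c
    rw [Finset.mem_filter, hA, Finset.mem_filter]
    constructor
    · rintro ⟨h1, h2⟩; exact ⟨h1, htr a0 ha0 a ha.1 c h1 ha.2 h2⟩
    · rintro ⟨h1, h2⟩; exact ⟨h1, htr a ha.1 a0 ha0 c h1 (hsy a0 ha0 a ha.1 ha.2) h2⟩
  have hclB : ∀ a ∈ B, S.filter (r a) = B := by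
    intro a ha
    rw [hB, Finset.mem_filter] at ha
    ext c
    rw [Finset.mem_filter, hB, Finset.mem_filter]
    constructor
    · rintro ⟨h1, h2⟩; exact ⟨h1, htr b0 hb0 a ha.1 c h1 ha.2 h2⟩
    · rintro ⟨h1, h2⟩; exact ⟨h1, htr a ha.1 b0 hb0 c h1 (hsy b0 hb0 a ha.1 ha.2) h2⟩
  have hnr : ∀ a ∈ A, ∀ b ∈ B, ¬ r a b ∧ ¬ r b a := by
    intro a ha b hb
    rw [hA, Finset.mem_filter] at ha
    rw [hB, Finset.mem_filter] at hb
    have h1 : ¬ r a b := fun h =>
      hab (htr a0 ha0 b hb.1 b0 hb0 (htr a0 ha0 a ha.1 b hb.1 ha.2 h)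
        (hsy b0 hb0 b hb.1 hb.2))
    exact ⟨h1, fun h => h1 (hsy b hb.1 a ha.1 h)⟩
  have hcard : (S.card : ℝ) = S'.card + A.card := by
    have := Finset.card_sdiff_add_card_eq_card hAS
    rw [← this]; push_cast; ring
  -- split the double sum
  have hsplit : ∀ g : V → ℝ, ∑ a ∈ S, g a = ∑ a ∈ S', g a + ∑ a ∈ A, g a := by
    intro g
    rw [← Finset.sum_sdiff hAS]
  have e1 : ∑ a ∈ S, ∑ b ∈ S, fS S r w a b =
      ∑ a ∈ S', ∑ b ∈ S', fS S r w a b + ∑ a ∈ S', ∑ b ∈ A, fS S r w a b +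
        ∑ a ∈ A, ∑ b ∈ S, fS S r w a b := by
    rw [hsplit (fun a => ∑ b ∈ S, fS S r w a b)]
    congr 1
    rw [← Finset.sum_add_distrib]
    apply Finset.sum_congr rfl
    intro a _
    exact hsplit (fun b => fS S r w a b)
  set W : ℝ := ∑ a' ∈ A, ∑ b' ∈ B, w a' b' with hW
  have e2 : (A.card : ℝ) * W ≤ ∑ a ∈ A, ∑ b ∈ S, fS S r w a b := by
    have h1 : ∑ a ∈ A, ∑ b ∈ B, fS S r w a b ≤ ∑ a ∈ A, ∑ b ∈ S, fS S r w a b :=
      Finset.sum_le_sum (fun a _ => Finset.sum_le_sum_of_subset_of_nonneg hBS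
        (fun b _ _ => fS_nonneg hw a b))
    refine le_trans (le_of_eq ?_) h1
    rw [hW, Finset.mul_sum]
    apply Finset.sum_congr rfl
    intro a ha
    rw [Finset.mul_sum]
    apply Finset.sum_congr rfl
    intro b hb
    unfold fS
    rw [if_neg (hnr a ha b hb).1, hclA a ha]
    ring
  have e3 : (B.card : ℝ) * W ≤ ∑ a ∈ S', ∑ b ∈ A, fS S r w a b := by
    have h1 : ∑ a ∈ B, ∑ b ∈ A, fS S r w a b ≤ ∑ a ∈ S', ∑ b ∈ A, fS S r w a b :=
      Finset.sum_le_sum_of_subset_of_nonneg hBS'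
        (fun a _ _ => Finset.sum_nonneg (fun b _ => fS_nonneg hw a b))
    refine le_trans (le_of_eq ?_) h1
    rw [hW, Finset.sum_comm, Finset.mul_sum]
    apply Finset.sum_congr rfl
    intro b hb
    rw [Finset.mul_sum]
    apply Finset.sum_congr rfl
    intro a ha
    unfold fS
    rw [if_neg (hnr a ha b hb).2, hclB b hb, hs a b]
    ring
  have hAB : (A.card : ℝ) ≤ B.card := by exact_mod_cast hle
  have hA0 : (0 : ℝ) ≤ A.card := Nat.cast_nonneg _
  have hB0 : (0 : ℝ) ≤ B.card := Nat.cast_nonneg _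
  have e4 : (A.card : ℝ) ≤ A.card * W := by nlinarith
  have e5 : (B.card : ℝ) ≤ B.card * W := by nlinarith
  rw [hfeq, e1, hcard]
  linarith

theorem pot_le {V : Type} (S : Finset V) (r : V → V → Prop) (w : V → V → ℝ)
    (hw : ∀ a b, 0 ≤ w a b) :
    (S.card : ℝ) - (1 / 2) * ∑ a ∈ S, ∑ b ∈ S, fS S r w a b ≤ S.card := by
  have : 0 ≤ ∑ a ∈ S, ∑ b ∈ S, fS S r w a b :=
    Finset.sum_nonneg (fun a _ => Finset.sum_nonneg (fun b _ => fS_nonneg hw a b))
  linarith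

theorem main {V : Type} (r : V → V → Prop) (w : V → V → ℝ)
    (hw : ∀ a b, 0 ≤ w a b) (hs : ∀ a b, w a b = w b a) : ∀ (n : ℕ) (S : Finset V),
    S.card = n → (∀ a ∈ S, r a a) → (∀ a ∈ S, ∀ b ∈ S, r a b → r b a) →
    (∀ a ∈ S, ∀ b ∈ S, ∀ c ∈ S, r a b → r b c → r a c) →
    ∃ K ⊆ S, (∀ a ∈ K, ∀ b ∈ K, ¬ r a b →
        ∑ a' ∈ K.filter (r a), ∑ b' ∈ K.filter (r b), w a' b' < 1) ∧
      (S.card : ℝ) - (1 / 2) * ∑ a ∈ S, ∑ b ∈ S, fS S r w a b ≤ K.card := by
  intro n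
  induction n using Nat.strong_induction_on with
  | _ n ih =>
    intro S hn hr hsy htr
    by_cases hgood : ∀ a ∈ S, ∀ b ∈ S, ¬ r a b →
        ∑ a' ∈ S.filter (r a), ∑ b' ∈ S.filter (r b), w a' b' < 1
    · exact ⟨S, Finset.Subset.refl S, hgood, pot_le S r w hw⟩
    · push Not at hgood
      obtain ⟨a1, ha1, b1, hb1, hab1, hbad1⟩ := hgood
      -- order the two classes
      obtain ⟨a0, b0, ha0, hb0, hab, hle, hbad⟩ : ∃ a0 b0, a0 ∈ S ∧ b0 ∈ S ∧ ¬ r a0 b0 ∧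
          (S.filter (r a0)).card ≤ (S.filter (r b0)).card ∧
          1 ≤ ∑ a' ∈ S.filter (r a0), ∑ b' ∈ S.filter (r b0), w a' b' := by
        rcases le_total (S.filter (r a1)).card (S.filter (r b1)).card with h | h
        · exact ⟨a1, b1, ha1, hb1, hab1, h, hbad1⟩
        · refine ⟨b1, a1, hb1, ha1, fun hc => hab1 (hsy b1 hb1 a1 ha1 hc), h, ?_⟩
          refine le_trans hbad1 (le_of_eq ?_)
          rw [Finset.sum_comm]
          exact Finset.sum_congr rfl (fun b _ => Finset.sum_congr rfl (fun a _ => hs a b))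
      have hst := step S r w hw hs hr hsy htr a0 b0 ha0 hb0 hab hle hbad
      set S' := S \ S.filter (r a0) with hS'
      have hS'S : S' ⊆ S := Finset.sdiff_subset
      have hlt : S'.card < n := by
        rw [← hn]
        apply Finset.card_lt_card
        refine ⟨hS'S, fun h => ?_⟩
        have h1 := h ha0
        rw [hS', Finset.mem_sdiff] at h1
        apply h1.2
        rw [Finset.mem_filter]
        exact ⟨ha0, hr a0 ha0⟩
      obtain ⟨K, hK, hK1, hK2⟩ := ih S'.card hlt S' rfl (fun a ha => hr a (hS'S ha))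
        (fun a ha b hb => hsy a (hS'S ha) b (hS'S hb))
        (fun a ha b hb c hc => htr a (hS'S ha) b (hS'S hb) c (hS'S hc))
      exact ⟨K, hK.trans hS'S, hK1, le_trans hst hK2⟩

theorem pf_SLB : T_SLB := by
  intro V S r w hw hs hr hsy htr
  exact main r w hw hs S.card S rfl hr hsy htr

end

end Pool.Agent.H22.HKB
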